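import Mathlib

/-!
# Squares that are sums of boundedly many powers of p

For every prime `p` there is `s` (with `s = 5` when `p = 2`) such that the set of all `n` for which
`n ^ 2` is a sum of `s` powers of `p` is not a finite union of arithmetic progressions and
`p`-sum sets.
-/

open Polynomial

namespace Pool.Agent.Results.MP_a804c6_nt.SquaresNotFiniteUnion

/-- The set `S(f; g_1, ..., g_s; p)` of the problem: all natural numbers `n` such that
`f(n) = ∑ j, g_j * p ^ (k_j)` for some natural numbers `k_j`. -/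
def solSet (p : ℕ) {s : ℕ} (f : (AlgebraicClosure ℚ)[X]) (g : Fin s → AlgebraicClosure ℚ) :
    Set ℕ :=
  {n | ∃ k : Fin s → ℕ, f.eval (n : AlgebraicClosure ℚ) =
    ∑ j, g j * (p : AlgebraicClosure ℚ) ^ (k j)}

/-- Arithmetic progressions `{a + b n : n ∈ ℕ}` (as sets of rational numbers), `b = 0` allowed. -/
def IsArithProg (A : Set ℚ) : Prop :=
  ∃ a b : ℕ, A = {x : ℚ | ∃ n : ℕ, x = (a : ℚ) + (b : ℚ) * (n : ℚ)}

/-- `p`-sum sets `{∑ j, c_j * p ^ (k_j n_j) : n_1, ..., n_m ∈ ℕ}` with `m ≥ 1`, rational `c_j` and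
natural `k_j`. -/
def IsPSumSet (p : ℕ) (A : Set ℚ) : Prop :=
  ∃ m : ℕ, 1 ≤ m ∧ ∃ (c : Fin m → ℚ) (k : Fin m → ℕ),
    A = {x : ℚ | ∃ n : Fin m → ℕ, x = ∑ j, c j * (p : ℚ) ^ (k j * n j)}

/-- `S` is the union of finitely many arithmetic progressions and `p`-sum sets (the empty union
is allowed). -/
def IsFiniteUnion (p : ℕ) (S : Set ℕ) : Prop :=
  ∃ F : Set (Set ℚ), F.Finite ∧ (∀ A ∈ F, IsArithProg A ∨ IsPSumSet p A) ∧
    (fun n : ℕ => (n : ℚ)) '' S = ⋃₀ F

/-! ### Digit sums -/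

/-- The base `p` digit sum. -/
def ds (p n : ℕ) : ℕ := (Nat.digits p n).sum

lemma ds_zero (p : ℕ) : ds p 0 = 0 := by simp [ds]

lemma ds_rec {p : ℕ} (hp : 2 ≤ p) (n : ℕ) : ds p n = n % p + ds p (n / p) := by
  rcases Nat.eq_zero_or_pos n with h | h
  · subst h; simp [ds]
  · unfold ds
    rw [Nat.digits_def' (by omega) h]
    simp

lemma ds_of_lt {p : ℕ} (hp : 2 ≤ p) {n : ℕ} (h : n < p) : ds p n = n := by
  rw [ds_rec hp, Nat.mod_eq_of_lt h, Nat.div_eq_of_lt h, ds_zero]; rfl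

lemma ds_one {p : ℕ} (hp : 2 ≤ p) : ds p 1 = 1 := ds_of_lt hp (by omega)

lemma ds_add_pow_mul {p : ℕ} (hp : 2 ≤ p) (k : ℕ) : ∀ a b : ℕ, a < p ^ k →
    ds p (a + p ^ k * b) = ds p a + ds p b := by
  induction k with
  | zero => intro a b h; have : a = 0 := by simpa using h
            subst this; simp [ds_zero]
  | succ k ih =>
    intro a b h
    have hp0 : 0 < p := by omega
    rw [ds_rec hp (a + p ^ (k+1) * b), ds_rec hp a]
    have h1 : (a + p ^ (k + 1) * b) % p = a % p := by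
      rw [pow_succ, mul_comm (p^k) p, mul_assoc, Nat.add_mul_mod_self_left]
    have h2 : (a + p ^ (k + 1) * b) / p = a / p + p ^ k * b := by
      rw [pow_succ, mul_comm (p^k) p, mul_assoc, Nat.add_mul_div_left _ _ hp0]
    rw [h1, h2, ih (a / p) b (by
      apply Nat.div_lt_of_lt_mul
      rw [← pow_succ']; exact h)]
    ring

lemma ds_pow_mul {p : ℕ} (hp : 2 ≤ p) (k b : ℕ) : ds p (p ^ k * b) = ds p b := by
  have := ds_add_pow_mul hp k 0 b (by positivity)
  simpa [ds_zero] using this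

lemma ds_pow {p : ℕ} (hp : 2 ≤ p) (k : ℕ) : ds p (p ^ k) = 1 := by
  have := ds_pow_mul hp k 1
  simpa [ds_one hp] using this

lemma ds_pos {p : ℕ} (hp : 2 ≤ p) : ∀ n : ℕ, 0 < n → 0 < ds p n := by
  intro n
  induction n using Nat.strong_induction_on with
  | _ n ih =>
    intro hn
    rw [ds_rec hp]
    rcases Nat.eq_zero_or_pos (n % p) with h | h
    · have hlt : n / p < n := Nat.div_lt_self hn (by omega)
      have hpos : 0 < n / p := by
        apply Nat.div_pos _ (by omega)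
        exact Nat.le_of_dvd hn (Nat.dvd_of_mod_eq_zero h)
      have := ih _ hlt hpos
      omega
    · omega

lemma ds_add_le {p : ℕ} (hp : 2 ≤ p) : ∀ N a b : ℕ, a + b = N → ds p (a + b) ≤ ds p a + ds p b := by
  intro N
  induction N using Nat.strong_induction_on with
  | _ N ih =>
    intro a b hab
    rcases Nat.eq_zero_or_pos N with h0 | h0
    · have ha : a = 0 := by omega
      have hb : b = 0 := by omega
      subst ha; subst hb; simp
    · have hp0 : 0 < p := by omega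
      have hdivlt : (a + b) / p < N := by
        rw [hab]; exact Nat.div_lt_self h0 (by omega)
      rw [ds_rec hp (a + b), ds_rec hp a, ds_rec hp b]
      have hma : a % p < p := Nat.mod_lt _ hp0
      have hmb : b % p < p := Nat.mod_lt _ hp0
      by_cases hc : a % p + b % p < p
      · have h1 : (a + b) % p = a % p + b % p := by
          rw [Nat.add_mod, Nat.mod_eq_of_lt hc]
        have h2 : (a + b) / p = a / p + b / p := by
          rw [Nat.add_div hp0, if_neg (by omega)]; rfl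
        rw [h1, h2]
        have := ih (a / p + b / p) (by rw [← h2]; exact hdivlt) (a/p) (b/p) rfl
        omega
      · have h1 : (a + b) % p + p = a % p + b % p := by
          rw [Nat.add_mod, Nat.mod_eq_sub_mod (by omega), Nat.mod_eq_of_lt (by omega)]
          omega
        have h2 : (a + b) / p = (a / p + b / p) + 1 := by
          rw [Nat.add_div hp0, if_pos (by omega)]
        have h3 := ih (a / p + b / p) (by rw [h2] at hdivlt; omega) (a/p) (b/p) rfl
        have h4 := ih ((a / p + b / p) + 1) (by rw [← h2]; exact hdivlt) (a/p + b/p) 1 rfl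
        rw [ds_one hp] at h4
        rw [h2]
        omega

lemma ds_sum_pow_le {p : ℕ} (hp : 2 ≤ p) {ι : Type*} (t : Finset ι) (k : ι → ℕ) :
    ds p (∑ j ∈ t, p ^ k j) ≤ t.card := by
  classical
  induction t using Finset.induction_on with
  | empty => simp [ds_zero]
  | insert a t ha ih =>
    rw [Finset.sum_insert ha, Finset.card_insert_of_notMem ha]
    have := ds_add_le hp _ (p ^ k a) (∑ j ∈ t, p ^ k j) rfl
    rw [ds_pow hp] at this
    omega

/-- Every `N` is a sum of `ds p N` powers of `p`. -/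
lemma exists_list {p : ℕ} (hp : 2 ≤ p) : ∀ N : ℕ, ∃ l : List ℕ, l.length = ds p N ∧
    (l.map (fun k => p ^ k)).sum = N := by
  intro N
  induction N using Nat.strong_induction_on with
  | _ N ih =>
    rcases Nat.eq_zero_or_pos N with h0 | h0
    · subst h0; exact ⟨[], by simp [ds_zero]⟩
    · obtain ⟨l, hl1, hl2⟩ := ih (N / p) (Nat.div_lt_self h0 (by omega))
      refine ⟨List.replicate (N % p) 0 ++ l.map (fun k => k + 1), ?_, ?_⟩
      · rw [ds_rec hp N]; simp [hl1]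
      · have h3 : (List.map (fun k => p ^ (k+1)) l).sum = p * (List.map (fun k => p ^ k) l).sum := by
          rw [← List.sum_map_mul_left]
          congr 1
          apply List.map_congr_left
          intro a _; rw [pow_succ']
        rw [List.map_append, List.sum_append, List.map_map]
        have h4 : ((fun k => p ^ k) ∘ fun k => k + 1) = fun k => p ^ (k + 1) := rfl
        rw [h4, h3, hl2]
        simp
        exact Nat.mod_add_div N p

lemma exists_fin {p : ℕ} (hp : 2 ≤ p) (N : ℕ) : ∃ k : Fin (ds p N) → ℕ, N = ∑ j, p ^ k j := by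
  obtain ⟨l, hl1, hl2⟩ := exists_list hp N
  rw [← hl1]
  refine ⟨fun j => l.get j, ?_⟩
  rw [← hl2, ← List.sum_ofFn]
  congr 1
  apply List.ext_getElem <;> simp

/-! ### Scale separation -/

/-- If `∑ c_j p ^ (k_j n_j) = p ^ (2a) + B p ^ a + C` with `a` large in terms of `c, B, C`, then the
terms of size about `p ^ (2a)` can be moved up together, keeping everything else fixed. -/
lemma separation {p : ℕ} (hp : 2 ≤ p) {m : ℕ} (c : Fin m → ℚ) (k : Fin m → ℕ) (B C : ℕ) :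
    ∃ a1 : ℕ, ∀ a ≥ a1, ∀ n : Fin m → ℕ,
      (∑ j, c j * (p : ℚ) ^ (k j * n j) = (p : ℚ) ^ (2 * a) + B * (p : ℚ) ^ a + C) →
      ∃ K : ℕ, 0 < K ∧ ∀ t : ℕ, ∃ n' : Fin m → ℕ,
        ∑ j, c j * (p : ℚ) ^ (k j * n' j) = (p : ℚ) ^ (2 * a + K * t) + B * (p : ℚ) ^ a + C := by
  classical
  -- common denominator
  set D : ℕ := ∏ j, (c j).den with hD
  have hDpos : 0 < D := Finset.prod_pos fun j _ => (c j).den_pos
  have hCint : ∀ j, ∃ z : ℤ, (z : ℚ) = (D : ℚ) * c j := by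
    intro j
    refine ⟨(∏ i ∈ Finset.univ.erase j, ((c i).den : ℤ)) * (c j).num, ?_⟩
    have h1 : (D : ℚ) = (∏ i ∈ Finset.univ.erase j, ((c i).den : ℚ)) * ((c j).den : ℚ) := by
      rw [hD]; push_cast
      rw [Finset.prod_erase_mul _ _ (Finset.mem_univ j)]
    rw [h1]
    have h2 : ((c j).den : ℚ) * c j = (c j).num := by
      rw [mul_comm]; exact Rat.mul_den_eq_num (c j)
    push_cast
    rw [mul_assoc, h2]
  choose Z hZ using hCint
  obtain ⟨H, hH⟩ : ∃ H : ℕ, H = (∑ j, (Z j).natAbs) + D * B + D * C + 1 := ⟨_, rfl⟩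
  obtain ⟨L, hL⟩ : ∃ L : ℕ, L = H := ⟨_, rfl⟩
  have hLpos : 0 < L := by omega
  have hpL : H < p ^ L := by
    calc H = L := hL.symm
      _ < p ^ L := Nat.lt_pow_self (by omega)
  refine ⟨(m + 2) * L, ?_⟩
  intro a ha n hsum
  -- a free window
  have hwin : ∃ i ∈ Finset.range (m + 1),
      i ∉ (Finset.univ : Finset (Fin m)).image (fun j => (k j * n j - a) / L) := by
    apply Finset.exists_mem_notMem_of_card_lt_card
    calc ((Finset.univ : Finset (Fin m)).image (fun j => (k j * n j - a) / L)).card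
        ≤ (Finset.univ : Finset (Fin m)).card := Finset.card_image_le
      _ = m := by simp
      _ < (Finset.range (m + 1)).card := by simp
  obtain ⟨i, hi, hi'⟩ := hwin
  have him : i ≤ m := by simpa [Nat.lt_succ_iff] using hi
  have hfree : ∀ j, k j * n j ≤ a + i * L ∨ a + (i + 1) * L ≤ k j * n j := by
    intro j
    by_contra hcon
    push Not at hcon
    apply hi'
    rw [Finset.mem_image]
    refine ⟨j, Finset.mem_univ _, ?_⟩
    apply Nat.div_eq_of_lt_le
    · omega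
    · have := hcon.2
      have h0 : 0 < (i + 1) * L := by positivity
      omega
  set τ : ℕ := a + i * L with hτ
  have hτL : a + (i + 1) * L = τ + L := by rw [hτ]; ring
  have hτ2a : τ + L ≤ 2 * a := by
    have : (i + 1) * L ≤ (m + 2) * L := Nat.mul_le_mul_right _ (by omega)
    omega
  let I2 : Finset (Fin m) := Finset.univ.filter (fun j => τ + L ≤ k j * n j)
  let R : Finset (Fin m) := Finset.univ.filter (fun j => ¬ (τ + L ≤ k j * n j))
  have hsplit : ∀ g : Fin m → ℚ, ∑ j, g j = ∑ j ∈ I2, g j + ∑ j ∈ R, g j := by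
    intro g
    exact (Finset.sum_filter_add_sum_filter_not _ _ _).symm
  -- the integer identity
  have hint : (∑ j ∈ R, Z j * (p : ℤ) ^ (k j * n j)) - D * B * (p : ℤ) ^ a - D * C
      = D * (p : ℤ) ^ (2 * a) - ∑ j ∈ I2, Z j * (p : ℤ) ^ (k j * n j) := by
    have hq : ((∑ j ∈ R, (Z j : ℚ) * (p : ℚ) ^ (k j * n j)) - D * B * (p : ℚ) ^ a - D * C)
      = D * (p : ℚ) ^ (2 * a) - ∑ j ∈ I2, (Z j : ℚ) * (p : ℚ) ^ (k j * n j) := by
      have h1 := hsplit (fun j => c j * (p : ℚ) ^ (k j * n j))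
      rw [hsum] at h1
      have h2 : ∀ s : Finset (Fin m), ∑ j ∈ s, (Z j : ℚ) * (p : ℚ) ^ (k j * n j)
          = (D : ℚ) * ∑ j ∈ s, c j * (p : ℚ) ^ (k j * n j) := by
        intro s
        rw [Finset.mul_sum]
        apply Finset.sum_congr rfl
        intro j _
        rw [hZ]; ring
      rw [h2, h2]
      linear_combination (D : ℚ) * (-h1)
    exact_mod_cast hq
  have hdvd : (p : ℤ) ^ (τ + L) ∣ (∑ j ∈ R, Z j * (p : ℤ) ^ (k j * n j)) -
      D * B * (p : ℤ) ^ a - D * C := by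
    rw [hint]
    apply dvd_sub
    · exact Dvd.dvd.mul_left (pow_dvd_pow _ hτ2a) _
    · apply Finset.dvd_sum
      intro j hj
      have : τ + L ≤ k j * n j := by simpa [I2] using hj
      exact Dvd.dvd.mul_left (pow_dvd_pow _ this) _
  have hp1 : (1 : ℤ) ≤ (p : ℤ) := by exact_mod_cast (by omega : 1 ≤ p)
  have habs : |(∑ j ∈ R, Z j * (p : ℤ) ^ (k j * n j)) - D * B * (p : ℤ) ^ a - D * C| <
      (p : ℤ) ^ (τ + L) := by
    have h1 : |∑ j ∈ R, Z j * (p : ℤ) ^ (k j * n j)| ≤ (∑ j, |Z j|) * (p : ℤ) ^ τ := by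
      calc |∑ j ∈ R, Z j * (p : ℤ) ^ (k j * n j)|
          ≤ ∑ j ∈ R, |Z j * (p : ℤ) ^ (k j * n j)| := Finset.abs_sum_le_sum_abs _ _
        _ ≤ ∑ j ∈ R, |Z j| * (p : ℤ) ^ τ := by
            apply Finset.sum_le_sum
            intro j hj
            rw [abs_mul, abs_of_nonneg (a := (p : ℤ) ^ (k j * n j)) (by positivity)]
            apply mul_le_mul_of_nonneg_left _ (abs_nonneg _)
            apply pow_le_pow_right₀ hp1
            have : ¬ (τ + L ≤ k j * n j) := by simpa [R] using hj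
            rcases hfree j with h | h
            · exact h
            · omega
        _ ≤ ∑ j, |Z j| * (p : ℤ) ^ τ := by
            apply Finset.sum_le_sum_of_subset_of_nonneg (Finset.subset_univ _)
            intro j _ _
            positivity
        _ = (∑ j, |Z j|) * (p : ℤ) ^ τ := by rw [Finset.sum_mul]
    have h2 : (p : ℤ) ^ a ≤ (p : ℤ) ^ τ := pow_le_pow_right₀ hp1 (by omega)
    have h3 : (1 : ℤ) ≤ (p : ℤ) ^ τ := one_le_pow₀ hp1
    have h4 : (H : ℤ) = (∑ j, |Z j|) + D * B + D * C + 1 := by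
      rw [hH]; push_cast
      rfl
    have h5 : (H : ℤ) < (p : ℤ) ^ L := by exact_mod_cast hpL
    have h6 : |(∑ j ∈ R, Z j * (p : ℤ) ^ (k j * n j)) - D * B * (p : ℤ) ^ a - D * C| ≤
        |∑ j ∈ R, Z j * (p : ℤ) ^ (k j * n j)| + D * B * (p : ℤ) ^ a + D * C := by
      have h7 : (0 : ℤ) ≤ D * B * (p : ℤ) ^ a := by positivity
      have h8 : (0 : ℤ) ≤ (D : ℤ) * C := by positivity
      rw [abs_le]
      have := neg_abs_le (∑ j ∈ R, Z j * (p : ℤ) ^ (k j * n j))
      have := le_abs_self (∑ j ∈ R, Z j * (p : ℤ) ^ (k j * n j))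
      constructor <;> linarith
    have h9 : (D : ℤ) * B * (p : ℤ) ^ a ≤ D * B * (p : ℤ) ^ τ :=
      mul_le_mul_of_nonneg_left h2 (by positivity)
    have h10 : (D : ℤ) * C ≤ D * C * (p : ℤ) ^ τ := by
      have : (0 : ℤ) ≤ (D : ℤ) * C := by positivity
      nlinarith
    have h11 : (H : ℤ) * (p : ℤ) ^ τ < (p : ℤ) ^ (τ + L) := by
      have hpos : (0 : ℤ) < (p : ℤ) ^ τ := by linarith
      calc (H : ℤ) * (p : ℤ) ^ τ < (p : ℤ) ^ L * (p : ℤ) ^ τ := mul_lt_mul_of_pos_right h5 hpos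
        _ = (p : ℤ) ^ (τ + L) := by rw [← pow_add, add_comm]
    have h12 : (∑ j, |Z j|) * (p : ℤ) ^ τ + D * B * (p : ℤ) ^ τ + D * C * (p : ℤ) ^ τ ≤
        (H : ℤ) * (p : ℤ) ^ τ := by
      rw [h4]; nlinarith
    linarith
  have hzero : (∑ j ∈ R, Z j * (p : ℤ) ^ (k j * n j)) - D * B * (p : ℤ) ^ a - D * C = 0 :=
    Int.eq_zero_of_abs_lt_dvd hdvd habs
  -- the two partial sums
  have hDq : (D : ℚ) ≠ 0 := by exact_mod_cast hDpos.ne'
  have hR : ∑ j ∈ R, c j * (p : ℚ) ^ (k j * n j) = B * (p : ℚ) ^ a + C := by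
    have hq : ((∑ j ∈ R, (Z j : ℚ) * (p : ℚ) ^ (k j * n j)) - D * B * (p : ℚ) ^ a - D * C) = 0 := by
      exact_mod_cast hzero
    have h2 : ∑ j ∈ R, (Z j : ℚ) * (p : ℚ) ^ (k j * n j)
          = (D : ℚ) * ∑ j ∈ R, c j * (p : ℚ) ^ (k j * n j) := by
        rw [Finset.mul_sum]
        apply Finset.sum_congr rfl
        intro j _
        rw [hZ]; ring
    rw [h2] at hq
    apply mul_left_cancel₀ hDq
    linear_combination hq
  have hI2 : ∑ j ∈ I2, c j * (p : ℚ) ^ (k j * n j) = (p : ℚ) ^ (2 * a) := by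
    have h1 := hsplit (fun j => c j * (p : ℚ) ^ (k j * n j))
    rw [hsum] at h1
    linear_combination (-1 : ℚ) * h1 - hR
  -- the shift
  let K : ℕ := ∏ j, (if k j = 0 then 1 else k j)
  have hK : 0 < K := Finset.prod_pos fun j _ => by split_ifs <;> omega
  have hKdvd : ∀ j ∈ I2, ∃ r, K = k j * r := by
    intro j hj
    have h1 : τ + L ≤ k j * n j := by simpa [I2] using hj
    have h2 : k j ≠ 0 := by
      intro h; rw [h] at h1; omega
    have h3 : (if k j = 0 then 1 else k j) ∣ K :=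
      Finset.dvd_prod_of_mem (fun j => if k j = 0 then 1 else k j) (Finset.mem_univ j)
    rw [if_neg h2] at h3
    exact h3
  refine ⟨K, hK, ?_⟩
  intro t
  refine ⟨fun j => if τ + L ≤ k j * n j then n j + (K / k j) * t else n j, ?_⟩
  rw [hsplit]
  have e1 : ∑ j ∈ I2, c j * (p : ℚ) ^ (k j * (if τ + L ≤ k j * n j then n j + (K / k j) * t else n j))
      = (p : ℚ) ^ (K * t) * ∑ j ∈ I2, c j * (p : ℚ) ^ (k j * n j) := by
    rw [Finset.mul_sum]
    apply Finset.sum_congr rfl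
    intro j hj
    have h1 : τ + L ≤ k j * n j := by simpa [I2] using hj
    rw [if_pos h1]
    obtain ⟨r, hr⟩ := hKdvd j hj
    have h2 : 0 < k j := by
      rcases Nat.eq_zero_or_pos (k j) with h | h
      · rw [h] at h1; omega
      · exact h
    have h3 : k j * (n j + K / k j * t) = K * t + k j * n j := by
      rw [hr, Nat.mul_div_cancel_left _ h2]; ring
    rw [h3, pow_add]; ring
  have e2 : ∑ j ∈ R, c j * (p : ℚ) ^ (k j * (if τ + L ≤ k j * n j then n j + (K / k j) * t else n j))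
      = ∑ j ∈ R, c j * (p : ℚ) ^ (k j * n j) := by
    apply Finset.sum_congr rfl
    intro j hj
    have h1 : ¬ (τ + L ≤ k j * n j) := by simpa [R] using hj
    rw [if_neg h1]
  rw [e1, e2, hR, hI2, pow_add]
  ring

/-! ### Digit sums of the relevant squares -/

lemma ds_special {p : ℕ} (hp : 2 ≤ p) (B C a : ℕ) (h1 : C ^ 2 < p ^ a) (h2 : 2 * B * C < p ^ a)
    (h3 : B ^ 2 + 2 * C < p ^ a) (h4 : 2 * B < p ^ a) :
    ds p ((p ^ (2 * a) + B * p ^ a + C) ^ 2) =
      ds p (C ^ 2) + ds p (2 * B * C) + ds p (B ^ 2 + 2 * C) + ds p (2 * B) + 1 := by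
  have e : (p ^ (2 * a) + B * p ^ a + C) ^ 2 =
      C ^ 2 + p ^ a * (2 * B * C + p ^ a * ((B ^ 2 + 2 * C) + p ^ a * (2 * B + p ^ a * 1))) := by
    ring
  rw [e, ds_add_pow_mul hp _ _ _ h1, ds_add_pow_mul hp _ _ _ h2, ds_add_pow_mul hp _ _ _ h3,
    ds_add_pow_mul hp _ _ _ h4, ds_one hp]
  ring

lemma ds_generic {p : ℕ} (hp : 2 ≤ p) (B C a e : ℕ) (h1 : C ^ 2 < p ^ a) (h2 : 2 * B * C < p ^ a)
    (h3 : 2 * C < p ^ a) (h4 : (B * p ^ a + C) ^ 2 < p ^ e) (h5 : 2 * (B * p ^ a + C) < p ^ e) :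
    ds p ((p ^ e + B * p ^ a + C) ^ 2) =
      ds p (C ^ 2) + ds p (2 * B * C) + ds p (B ^ 2) + ds p (2 * C) + ds p (2 * B) + 1 := by
  have e1 : (p ^ e + B * p ^ a + C) ^ 2 =
      (B * p ^ a + C) ^ 2 + p ^ e * (2 * (B * p ^ a + C) + p ^ e * 1) := by
    ring
  have e2 : (B * p ^ a + C) ^ 2 = C ^ 2 + p ^ a * (2 * B * C + p ^ a * B ^ 2) := by ring
  have e3 : 2 * (B * p ^ a + C) = 2 * C + p ^ a * (2 * B) := by ring
  rw [e1, ds_add_pow_mul hp _ _ _ h4, ds_add_pow_mul hp _ _ _ h5, e2, e3,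
    ds_add_pow_mul hp _ _ _ h1, ds_add_pow_mul hp _ _ _ h2, ds_add_pow_mul hp _ _ _ h3, ds_one hp]
  ring

/-! ### The main argument -/

lemma mem_solSet_iff (p s n : ℕ) :
    n ∈ solSet p (X ^ 2 : (AlgebraicClosure ℚ)[X]) (fun _ : Fin s => 1) ↔
      ∃ k : Fin s → ℕ, n ^ 2 = ∑ j, p ^ k j := by
  unfold solSet
  simp only [Set.mem_ofPred_eq, eval_pow, eval_X, one_mul]
  constructor
  · rintro ⟨k, hk⟩
    refine ⟨k, ?_⟩
    exact_mod_cast hk
  · rintro ⟨k, hk⟩
    refine ⟨k, ?_⟩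
    exact_mod_cast hk

lemma key {p : ℕ} (hp : 2 ≤ p) (B C s : ℕ)
    (hs : s = ds p (C ^ 2) + ds p (2 * B * C) + ds p (B ^ 2 + 2 * C) + ds p (2 * B) + 1)
    (hBC : ds p (B ^ 2 + 2 * C) < ds p (B ^ 2) + ds p (2 * C)) :
    ¬ IsFiniteUnion p (solSet p (X ^ 2 : (AlgebraicClosure ℚ)[X]) (fun _ : Fin s => 1)) := by
  rintro ⟨F, hFfin, hFtype, hFeq⟩
  set S := solSet p (X ^ 2 : (AlgebraicClosure ℚ)[X]) (fun _ : Fin s => 1) with hS
  -- elements of `S` have squares of digit sum at most `s`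
  have hSle : ∀ n ∈ S, ds p (n ^ 2) ≤ s := by
    intro n hn
    rw [hS, mem_solSet_iff] at hn
    obtain ⟨k, hk⟩ := hn
    rw [hk]
    simpa using ds_sum_pow_le hp (Finset.univ : Finset (Fin s)) k
  -- a threshold
  obtain ⟨a0, ha0⟩ : ∃ a0 : ℕ, a0 = C ^ 2 + 2 * B * C + (B ^ 2 + 2 * C) + 2 * B := ⟨_, rfl⟩
  have hbig : ∀ a ≥ a0, C ^ 2 < p ^ a ∧ 2 * B * C < p ^ a ∧ B ^ 2 + 2 * C < p ^ a ∧
      2 * B < p ^ a ∧ 2 * C < p ^ a := by
    intro a ha
    have h1 : a < p ^ a := Nat.lt_pow_self (by omega)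
    generalize hu : C ^ 2 = u at *
    generalize hv : 2 * B * C = v at *
    generalize hw : B ^ 2 = w at *
    refine ⟨by omega, by omega, by omega, by omega, by omega⟩
  let N : ℕ → ℕ := fun a => p ^ (2 * a) + B * p ^ a + C
  have hNds : ∀ a ≥ a0, ds p (N a ^ 2) = s := by
    intro a ha
    obtain ⟨h1, h2, h3, h4, h5⟩ := hbig a ha
    rw [hs]
    exact ds_special hp B C a h1 h2 h3 h4
  have hNS : ∀ a ≥ a0, N a ∈ S := by
    intro a ha
    rw [hS, mem_solSet_iff]
    obtain ⟨k, hk⟩ := exists_fin hp (N a ^ 2)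
    rw [← hNds a ha]
    exact ⟨k, hk⟩
  have hNinj : Function.Injective N := by
    have hmono : StrictMono N := by
      intro a b hab
      have h1 : p ^ (2 * a) < p ^ (2 * b) := Nat.pow_lt_pow_right (by omega) (by omega)
      have h2 : p ^ a ≤ p ^ b := Nat.pow_le_pow_right (by omega) hab.le
      have h3 : B * p ^ a ≤ B * p ^ b := Nat.mul_le_mul_left _ h2
      show p ^ (2 * a) + B * p ^ a + C < p ^ (2 * b) + B * p ^ b + C
      omega
    exact hmono.injective
  -- some member of `F` contains infinitely many `N a`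
  have hTexists : ∃ T ∈ F, {a : ℕ | a0 ≤ a ∧ ((N a : ℕ) : ℚ) ∈ T}.Infinite := by
    by_contra hcon
    push Not at hcon
    have hfin : (⋃ T ∈ F, {a : ℕ | a0 ≤ a ∧ ((N a : ℕ) : ℚ) ∈ T}).Finite :=
      Set.Finite.biUnion hFfin (fun T hT => hcon T hT)
    have hsub : Set.Ici a0 ⊆ ⋃ T ∈ F, {a : ℕ | a0 ≤ a ∧ ((N a : ℕ) : ℚ) ∈ T} := by
      intro a ha
      have h1 : ((N a : ℕ) : ℚ) ∈ (fun n : ℕ => (n : ℚ)) '' S := ⟨N a, hNS a ha, rfl⟩
      rw [hFeq] at h1
      obtain ⟨T, hT, hmem⟩ := h1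
      simp only [Set.mem_iUnion]
      exact ⟨T, hT, ha, hmem⟩
    exact (Set.Ici_infinite a0) (hfin.subset hsub)
  obtain ⟨T, hTF, hTinf⟩ := hTexists
  have hTS : ∀ n : ℕ, (n : ℚ) ∈ T → n ∈ S := by
    intro n hn
    have h1 : (n : ℚ) ∈ ⋃₀ F := ⟨T, hTF, hn⟩
    rw [← hFeq] at h1
    obtain ⟨n', hn', he⟩ := h1
    have he2 : (n' : ℚ) = (n : ℚ) := he
    have : n' = n := by exact_mod_cast he2
    rwa [this] at hn'
  rcases hFtype T hTF with hAP | hPS
  · -- arithmetic progression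
    obtain ⟨u, v, huv⟩ := hAP
    rcases Nat.eq_zero_or_pos v with hv | hv
    · -- singleton
      have hss : {a : ℕ | a0 ≤ a ∧ ((N a : ℕ) : ℚ) ∈ T}.Subsingleton := by
        intro a ha b hb
        have ha' := ha.2
        have hb' := hb.2
        rw [huv] at ha' hb'
        obtain ⟨x, hx⟩ := ha'
        obtain ⟨y, hy⟩ := hb'
        rw [hv] at hx hy
        apply hNinj
        have : ((N a : ℕ) : ℚ) = ((N b : ℕ) : ℚ) := by rw [hx, hy]; simp
        exact_mod_cast this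
      exact hTinf hss.finite
    · obtain ⟨a, ha⟩ := hTinf.nonempty
      obtain ⟨haa, haT⟩ := ha
      rw [huv] at haT
      obtain ⟨x, hx⟩ := haT
      obtain ⟨t, ht⟩ : ∃ t : ℕ, t = N a ^ 2 := ⟨_, rfl⟩
      have hmem : ((N a + v * p ^ t : ℕ) : ℚ) ∈ T := by
        rw [huv]
        refine ⟨x + p ^ t, ?_⟩
        push_cast
        rw [hx]; ring
      have h1 := hSle _ (hTS _ hmem)
      have h2 : (N a + v * p ^ t) ^ 2 = N a ^ 2 + p ^ t * (2 * v * N a + v ^ 2 * p ^ t) := by ring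
      have h3 : N a ^ 2 < p ^ t := by
        rw [← ht]; exact Nat.lt_pow_self (by omega)
      rw [h2, ds_add_pow_mul hp _ _ _ h3, hNds a haa] at h1
      have h4 : 0 < ds p (2 * v * N a + v ^ 2 * p ^ t) := by
        apply ds_pos hp
        positivity
      omega
  · -- `p`-sum set
    obtain ⟨m, -, c, k, hT⟩ := hPS
    obtain ⟨a1, ha1⟩ := separation hp c k B C
    have hex : ∃ a, a0 ≤ a ∧ a1 ≤ a ∧ ((N a : ℕ) : ℚ) ∈ T := by
      obtain ⟨a, ha, hlt⟩ := hTinf.exists_gt a1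
      exact ⟨a, ha.1, hlt.le, ha.2⟩
    obtain ⟨a, haa0, haa1, haT⟩ := hex
    rw [hT] at haT
    obtain ⟨n, hn⟩ := haT
    have hn' : ∑ j, c j * (p : ℚ) ^ (k j * n j) = (p : ℚ) ^ (2 * a) + B * (p : ℚ) ^ a + C := by
      rw [← hn]
      show ((p ^ (2 * a) + B * p ^ a + C : ℕ) : ℚ) = _
      push_cast; ring
    obtain ⟨K, hK, hKt⟩ := ha1 a haa1 n hn'
    obtain ⟨t, ht⟩ : ∃ t : ℕ, t = (B * p ^ a + C) ^ 2 + 2 * (B * p ^ a + C) := ⟨_, rfl⟩
    obtain ⟨n2, hn2⟩ := hKt t
    obtain ⟨e, he⟩ : ∃ e : ℕ, e = 2 * a + K * t := ⟨_, rfl⟩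
    have hmem : ((p ^ e + B * p ^ a + C : ℕ) : ℚ) ∈ T := by
      rw [hT]
      refine ⟨n2, ?_⟩
      rw [hn2, he]; push_cast; ring
    have h1 := hSle _ (hTS _ hmem)
    obtain ⟨g1, g2, g3, g4, g5⟩ := hbig a haa0
    have hte : t ≤ e := by
      have : t ≤ K * t := Nat.le_mul_of_pos_left _ hK
      omega
    have hpe : t < p ^ e := lt_of_le_of_lt hte (Nat.lt_pow_self (by omega))
    rw [ds_generic hp B C a e g1 g2 g5 (by omega) (by omega)] at h1
    omega

/-- **Main result.** For every prime `p` there is `s ≥ 1`, and for `p = 2` one may take `s = 5`,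
such that the set of all `n` for which `n ^ 2` is a sum of `s` powers of `p` (the set
`S(z ^ 2; 1, ..., 1; p)`) is not the union of finitely many arithmetic progressions and
`p`-sum sets. -/
theorem result : ∀ p : ℕ, p.Prime → ∃ s : ℕ, 1 ≤ s ∧ (p = 2 → s = 5) ∧
    ¬ IsFiniteUnion p (solSet p (X ^ 2 : (AlgebraicClosure ℚ)[X]) (fun _ : Fin s => 1)) := by
  intro p hpp
  have hp : 2 ≤ p := hpp.two_le
  rcases hpp.eq_two_or_odd with h2 | hodd
  · subst h2
    refine ⟨5, by norm_num, fun _ => rfl, ?_⟩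
    have d4 : ds 2 4 = 1 := by have := ds_pow (p := 2) le_rfl 2; simpa using this
    have d8 : ds 2 8 = 1 := by have := ds_pow (p := 2) le_rfl 3; simpa using this
    apply key (p := 2) le_rfl 2 2 5
    · norm_num [d4, d8]
    · norm_num [d4, d8]
  · obtain ⟨C, hC⟩ : ∃ C : ℕ, 2 * C + 1 = p := ⟨p / 2, by omega⟩
    refine ⟨_, ?_, ?_, key hp 1 C _ rfl ?_⟩
    · omega
    · intro h; omega
    · have h1 : 1 ^ 2 + 2 * C = p ^ 1 := by rw [pow_one]; omega
      rw [h1, ds_pow hp, one_pow, ds_one hp]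
      have := ds_pos hp (2 * C) (by omega)
      omega

end Pool.Agent.Results.MP_a804c6_nt.SquaresNotFiniteUnion
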